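import Mathlib

/-!
Erdős: for fixed `0 < ε < 1` the least window length `y(ε, n)` beyond which every window contains at
most a proportion `ε` of integers with a divisor in `(n, 2n)` is of exact order `n`.
-/

namespace Pool.Agent.Results.MP_d08b2e_nt.LinearGrowth

open Finset Filter Topology

/-! ### Sums over full periods -/

theorem sum_coprime (M N : ℕ) (hM : 0 < M) (hN : 0 < N) (co : Nat.Coprime M N) (g h : ℕ → ℝ)
    (hg : ∀ r, g (r % M) = g r) (hh : ∀ r, h (r % N) = h r) :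
    ∑ r ∈ range (M * N), g r * h r = (∑ r ∈ range M, g r) * ∑ r ∈ range N, h r := by
  rw [Finset.sum_mul_sum, ← Finset.sum_product']
  symm
  apply Finset.sum_nbij' (fun p => (Nat.chineseRemainder co p.1 p.2 : ℕ))
    (fun r => (r % M, r % N))
  · rintro ⟨a, b⟩ h
    rw [mem_range]
    exact Nat.chineseRemainder_lt_mul co a b hM.ne' hN.ne'
  · intro r hr
    rw [mem_product, mem_range, mem_range]
    exact ⟨Nat.mod_lt _ hM, Nat.mod_lt _ hN⟩
  · rintro ⟨a, b⟩ h
    rw [mem_product, mem_range, mem_range] at h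
    have h1 := (Nat.chineseRemainder co a b).2
    have h2 : (Nat.chineseRemainder co a b : ℕ) % M = a := by
      have := h1.1
      unfold Nat.ModEq at this
      rw [this, Nat.mod_eq_of_lt h.1]
    have h3 : (Nat.chineseRemainder co a b : ℕ) % N = b := by
      have := h1.2
      unfold Nat.ModEq at this
      rw [this, Nat.mod_eq_of_lt h.2]
    simp only [h2, h3]
  · intro r hr
    rw [mem_range] at hr
    have h1 := (Nat.chineseRemainder co (r % M) (r % N)).2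
    have h2 : (Nat.chineseRemainder co (r % M) (r % N) : ℕ) ≡ r [MOD M * N] := by
      rw [← Nat.modEq_and_modEq_iff_modEq_mul co]
      exact ⟨h1.1.trans (Nat.mod_modEq _ _), h1.2.trans (Nat.mod_modEq _ _)⟩
    have h3 := Nat.chineseRemainder_lt_mul co (r % M) (r % N) hM.ne' hN.ne'
    exact Nat.ModEq.eq_of_lt_of_lt h2 h3 hr
  · rintro ⟨a, b⟩ h
    rw [mem_product, mem_range, mem_range] at h
    have h1 := (Nat.chineseRemainder co a b).2
    have h2 : (Nat.chineseRemainder co a b : ℕ) % M = a := by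
      have := h1.1
      unfold Nat.ModEq at this
      rw [this, Nat.mod_eq_of_lt h.1]
    have h3 : (Nat.chineseRemainder co a b : ℕ) % N = b := by
      have := h1.2
      unfold Nat.ModEq at this
      rw [this, Nat.mod_eq_of_lt h.2]
    simp only
    rw [← hg (Nat.chineseRemainder co a b : ℕ), ← hh (Nat.chineseRemainder co a b : ℕ), h2, h3]

theorem ite_dvd_mod (p : ℕ) (α β : ℝ) (Q r : ℕ) (h : p ∣ Q) :
    (if p ∣ r % Q then α else β) = if p ∣ r then α else β := by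
  have : p ∣ r % Q ↔ p ∣ r := by
    rw [Nat.dvd_mod_iff h]
  simp only [this]

theorem sum_prod_period (P : Finset ℕ) (hP : ∀ p ∈ P, p.Prime) (α β : ℕ → ℝ) :
    ∑ r ∈ range (∏ p ∈ P, p), ∏ p ∈ P, (if p ∣ r then α p else β p) =
      ∏ p ∈ P, (α p + (p - 1) * β p) := by
  classical
  induction P using Finset.induction_on with
  | empty => simp
  | insert q P hq ih =>
    have hqp : q.Prime := hP q (mem_insert_self _ _)
    have hP' : ∀ p ∈ P, p.Prime := fun p hp => hP p (mem_insert_of_mem hp)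
    have hpos : 0 < ∏ p ∈ P, p := Finset.prod_pos fun p hp => (hP' p hp).pos
    have co : Nat.Coprime q (∏ p ∈ P, p) := by
      apply Nat.Coprime.prod_right
      intro p hp
      rw [Nat.coprime_primes hqp (hP' p hp)]
      rintro rfl
      exact hq hp
    rw [Finset.prod_insert hq, Finset.prod_insert hq, ← ih hP']
    have h1 : ∀ r ∈ range (q * ∏ p ∈ P, p), (∏ p ∈ insert q P, if p ∣ r then α p else β p) =
        (if q ∣ r then α q else β q) * ∏ p ∈ P, (if p ∣ r then α p else β p) := by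
      intro r _
      rw [Finset.prod_insert hq]
    rw [Finset.sum_congr rfl h1, sum_coprime q _ hqp.pos hpos co
      (fun r => if q ∣ r then α q else β q) (fun r => ∏ p ∈ P, (if p ∣ r then α p else β p))]
    · congr 1
      have h2 : range q = insert 0 (Ico 1 q) := by
        ext r
        simp only [mem_range, mem_insert, mem_Ico]
        have := hqp.pos
        omega
      rw [h2, Finset.sum_insert (by simp)]
      have h3 : ∀ r ∈ Ico 1 q, (if q ∣ r then α q else β q) = β q := by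
        intro r hr
        rw [mem_Ico] at hr
        rw [if_neg]
        intro hd
        have := Nat.le_of_dvd (by omega) hd
        omega
      rw [Finset.sum_congr rfl h3, Finset.sum_const, Nat.card_Ico, nsmul_eq_mul,
        Nat.cast_sub hqp.one_le]
      simp
    · intro r
      exact ite_dvd_mod q _ _ q r dvd_rfl
    · intro r
      apply Finset.prod_congr rfl
      intro p hp
      exact ite_dvd_mod p _ _ _ r (Finset.dvd_prod_of_mem _ hp)

/-- The weight `∏_{p ∈ P, p ∣ m} z`. -/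
noncomputable def wt (P : Finset ℕ) (z : ℝ) (m : ℕ) : ℝ := ∏ p ∈ P, (if p ∣ m then z else 1)

theorem wt_eq (P : Finset ℕ) (z : ℝ) (m : ℕ) : wt P z m = z ^ (P.filter (· ∣ m)).card := by
  rw [wt, Finset.prod_ite, Finset.prod_const, Finset.prod_const_one, mul_one]

theorem wt_nonneg (P : Finset ℕ) (z : ℝ) (hz : 0 ≤ z) (m : ℕ) : 0 ≤ wt P z m := by
  rw [wt_eq]; positivity

theorem wt_mod (P : Finset ℕ) (z : ℝ) (m : ℕ) : wt P z (m % ∏ p ∈ P, p) = wt P z m := by
  apply Finset.prod_congr rfl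
  intro p hp
  exact ite_dvd_mod p _ _ _ m (Finset.dvd_prod_of_mem _ hp)

theorem sum_wt (P : Finset ℕ) (hP : ∀ p ∈ P, p.Prime) (w : ℝ) :
    ∑ r ∈ range (∏ p ∈ P, p), wt P w r = ∏ p ∈ P, ((p : ℝ) - 1 + w) := by
  unfold wt
  rw [sum_prod_period P hP]
  apply Finset.prod_congr rfl
  intro p _
  ring

theorem sum_wt_mul (P : Finset ℕ) (hP : ∀ p ∈ P, p.Prime) (z : ℝ) :
    ∑ a ∈ range (∏ p ∈ P, p), ∑ b ∈ range (∏ p ∈ P, p), wt P z (a * b) =
      ∏ p ∈ P, (((p : ℝ) - 1) ^ 2 + z * (2 * p - 1)) := by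
  have h1 : ∀ a ∈ range (∏ p ∈ P, p), ∑ b ∈ range (∏ p ∈ P, p), wt P z (a * b) =
      ∏ p ∈ P, (if p ∣ a then (p : ℝ) * z else p - 1 + z) := by
    intro a _
    have h2 : ∀ b ∈ range (∏ p ∈ P, p), wt P z (a * b) =
        ∏ p ∈ P, (if p ∣ b then z else (if p ∣ a then z else 1)) := by
      intro b _
      apply Finset.prod_congr rfl
      intro p hp
      have := (hP p hp).dvd_mul (m := a) (n := b)
      by_cases ha : p ∣ a <;> by_cases hb : p ∣ b <;> simp [this, ha, hb]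
    rw [Finset.sum_congr rfl h2, sum_prod_period P hP (fun _ => z) (fun p => if p ∣ a then z else 1)]
    apply Finset.prod_congr rfl
    intro p _
    split_ifs <;> ring
  rw [Finset.sum_congr rfl h1, sum_prod_period P hP]
  apply Finset.prod_congr rfl
  intro p _
  ring

/-! ### Sums over intervals -/

theorem sum_Ico_period (G : ℕ → ℝ) (Q : ℕ) (hG : ∀ r, G (r % Q) = G r) (a : ℕ) :
    ∑ r ∈ Ico a (a + Q), G r = ∑ r ∈ range Q, G r := by
  rw [← Nat.image_Ico_mod a Q, Finset.sum_image (fun x hx y hy => Nat.mod_injOn_Ico a Q hx hy)]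
  apply Finset.sum_congr rfl
  intro r _
  exact (hG r).symm

theorem sum_Ico_le (G : ℕ → ℝ) (Q : ℕ) (hQ : 0 < Q) (hG : ∀ r, G (r % Q) = G r)
    (hG0 : ∀ r, 0 ≤ G r) (a b : ℕ) :
    ∑ r ∈ Ico a b, G r ≤ (((b - a : ℕ) : ℝ) / Q + 1) * ∑ r ∈ range Q, G r := by
  have h1 : ∀ k : ℕ, ∑ r ∈ Ico a (a + k * Q), G r = k * ∑ r ∈ range Q, G r := by
    intro k
    induction k with
    | zero => simp
    | succ k ih =>
      rw [← Finset.sum_Ico_consecutive G (show a ≤ a + k * Q by omega)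
        (show a + k * Q ≤ a + (k + 1) * Q by rw [add_mul]; omega), ih]
      have h2 : a + (k + 1) * Q = (a + k * Q) + Q := by ring
      rw [h2, sum_Ico_period G Q hG]
      push_cast; ring
  have h2 : b - a ≤ ((b - a) / Q + 1) * Q := by
    have := Nat.lt_div_mul_add hQ (a := b - a)
    rw [add_mul, one_mul]
    omega
  have h3 : ∑ r ∈ Ico a b, G r ≤ ∑ r ∈ Ico a (a + ((b - a) / Q + 1) * Q), G r := by
    apply Finset.sum_le_sum_of_subset_of_nonneg
    · apply Finset.Ico_subset_Ico_right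
      omega
    · intro i _ _
      exact hG0 i
  rw [h1] at h3
  refine h3.trans ?_
  have h4 : (0 : ℝ) ≤ ∑ r ∈ range Q, G r := Finset.sum_nonneg fun i _ => hG0 i
  have h5 : (((b - a) / Q : ℕ) : ℝ) ≤ ((b - a : ℕ) : ℝ) / Q := Nat.cast_div_le
  have h6 : (((b - a) / Q + 1 : ℕ) : ℝ) ≤ ((b - a : ℕ) : ℝ) / Q + 1 := by
    push_cast; linarith
  gcongr

/-! ### The definitions of the problem -/

/-- `m` has a medium divisor: a divisor `d` with `n < d < 2n`. -/
def Medium (n m : ℕ) : Prop := ∃ d : ℕ, n < d ∧ d < 2 * n ∧ d ∣ m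

/-- `N n x y` is the number of integers `m` with `x < m < x + y` that have a medium divisor. -/
noncomputable def N (n x y : ℕ) : ℕ := {m : ℕ | x < m ∧ m < x + y ∧ Medium n m}.ncard

/-- `Good ε n y₀`: `N n x y ≤ ε y` for every `x ≥ 0` and every `y ≥ y₀`. -/
def Good (ε : ℝ) (n y₀ : ℕ) : Prop := ∀ x y : ℕ, y₀ ≤ y → (N n x y : ℝ) ≤ ε * y

/-- `Y ε n` is the least `y₀` with `Good ε n y₀`, and `⊤ = ∞` if there is none. -/
noncomputable def Y (ε : ℝ) (n : ℕ) : ℕ∞ := sInf {k : ℕ∞ | ∃ y₀ : ℕ, k = (y₀ : ℕ∞) ∧ Good ε n y₀}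

/-! ### The counting argument -/

theorem one_le_wts (P : Finset ℕ) (w z : ℝ) (hw : 1 ≤ w) (hz : 0 < z) (hz1 : z ≤ 1) (l m : ℕ) :
    1 ≤ w⁻¹ ^ l * wt P w m + z⁻¹ ^ l * wt P z m := by
  rw [wt_eq, wt_eq]
  set k := (P.filter (· ∣ m)).card
  have hw0 : 0 < w := by linarith
  rcases le_total l k with h | h
  · have h1 : 1 ≤ w⁻¹ ^ l * w ^ k := by
      obtain ⟨j, hj⟩ := Nat.exists_eq_add_of_le h
      rw [hj, pow_add, ← mul_assoc, ← mul_pow, inv_mul_cancel₀ hw0.ne', one_pow, one_mul]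
      exact one_le_pow₀ hw
    have h2 : 0 ≤ z⁻¹ ^ l * z ^ k := by positivity
    linarith
  · have h1 : 1 ≤ z⁻¹ ^ l * z ^ k := by
      obtain ⟨j, hj⟩ := Nat.exists_eq_add_of_le h
      rw [hj, pow_add, mul_comm (z⁻¹ ^ k), mul_assoc, ← mul_pow, inv_mul_cancel₀ hz.ne', one_pow,
        mul_one]
      exact one_le_pow₀ ((one_le_inv₀ hz).2 hz1)
    have h2 : 0 ≤ w⁻¹ ^ l * w ^ k := by positivity
    linarith

theorem wt_mul_mod (P : Finset ℕ) (z : ℝ) (d e : ℕ) :
    wt P z (d * (e % ∏ p ∈ P, p)) = wt P z (d * e) := by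
  rw [← wt_mod P z (d * (e % ∏ p ∈ P, p)), ← wt_mod P z (d * e)]
  congr 1
  rw [Nat.mul_mod, Nat.mod_mod, ← Nat.mul_mod]

theorem len_le (n x y d : ℕ) (hn : 0 < n) (hd : n < d) :
    ((x + y - 1) / d + 1) - (x / d + 1) ≤ y / n + 1 := by
  have hd0 : 0 < d := by omega
  set u := (x + y - 1) / d with hu
  set v := x / d with hv
  have h1 : u * d ≤ x + y - 1 := Nat.div_mul_le_self _ _
  have h2 : x < (v + 1) * d := by
    have := Nat.lt_div_mul_add hd0 (a := x)
    rw [add_mul, one_mul]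
    exact this
  rcases le_or_gt u (v + 1) with h | h
  · have : u + 1 - (v + 1) ≤ 1 := by omega
    exact this.trans (Nat.le_add_left 1 _)
  · obtain ⟨k, hk⟩ := Nat.exists_eq_add_of_lt h
    have h3 : k + 1 ≤ y / n := by
      rw [Nat.le_div_iff_mul_le hn]
      have h4 : u * d = (v + 1) * d + (k + 1) * d := by rw [hk]; ring
      have h5 : (k + 1) * n ≤ (k + 1) * d := Nat.mul_le_mul_left _ hd.le
      omega
    have h6 : u + 1 - (v + 1) = (k + 1) + 1 := by omega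
    rw [h6]
    exact Nat.add_le_add_right h3 1

theorem main_count (P : Finset ℕ) (hP : ∀ p ∈ P, p.Prime) (w z : ℝ) (hw : 1 ≤ w) (hz : 0 < z)
    (hz1 : z ≤ 1) (l n x y : ℕ) (hn : 0 < n) :
    (N n x y : ℝ) ≤
      w⁻¹ ^ l * (((y : ℝ) / (∏ p ∈ P, p : ℕ) + 1) * ∏ p ∈ P, ((p : ℝ) - 1 + w)) +
      z⁻¹ ^ l * (((n : ℝ) / (∏ p ∈ P, p : ℕ) + 1) * ((((y : ℝ) / n + 1) / (∏ p ∈ P, p : ℕ) + 1) *
        ∏ p ∈ P, (((p : ℝ) - 1) ^ 2 + z * (2 * p - 1)))) := by
  classical
  set Q := ∏ p ∈ P, p with hQ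
  have hQ0 : 0 < Q := Finset.prod_pos fun p hp => (hP p hp).pos
  have hw0 : 0 < w := by linarith
  set M := (Ico (x + 1) (x + y)).filter (fun m => Medium n m) with hM
  have e1 : N n x y = M.card := by
    rw [N, ← Set.ncard_coe_finset]
    congr 1
    ext m
    rw [hM, Finset.coe_filter, Set.mem_ofPred_eq, Set.mem_ofPred_eq, mem_Ico]
    constructor
    · rintro ⟨h1, h2, h3⟩; exact ⟨⟨by omega, h2⟩, h3⟩
    · rintro ⟨⟨h1, h2⟩, h3⟩; exact ⟨by omega, h2, h3⟩
  have e2 : (M.card : ℝ) = ∑ m ∈ M, (1 : ℝ) := by simp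
  have s1 : (M.card : ℝ) ≤ w⁻¹ ^ l * ∑ m ∈ M, wt P w m + z⁻¹ ^ l * ∑ m ∈ M, wt P z m := by
    rw [e2, Finset.mul_sum, Finset.mul_sum, ← Finset.sum_add_distrib]
    exact Finset.sum_le_sum fun m _ => one_le_wts P w z hw hz hz1 l m
  -- first sum
  have s2 : ∑ m ∈ M, wt P w m ≤ ((y : ℝ) / Q + 1) * ∏ p ∈ P, ((p : ℝ) - 1 + w) := by
    have h1 : ∑ m ∈ M, wt P w m ≤ ∑ m ∈ Ico (x + 1) (x + y), wt P w m :=
      Finset.sum_le_sum_of_subset_of_nonneg (Finset.filter_subset _ _)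
        fun i _ _ => wt_nonneg P w hw0.le i
    have h2 := sum_Ico_le (wt P w) Q hQ0 (wt_mod P w) (wt_nonneg P w hw0.le) (x + 1) (x + y)
    rw [sum_wt P hP w] at h2
    have h3 : (((x + y - (x + 1) : ℕ)) : ℝ) ≤ y := by
      exact_mod_cast (show x + y - (x + 1) ≤ y by omega)
    have h4 : 0 ≤ ∏ p ∈ P, ((p : ℝ) - 1 + w) := by
      apply Finset.prod_nonneg
      intro p _
      have : (0 : ℝ) ≤ p := by positivity
      linarith
    refine h1.trans (h2.trans ?_)
    gcongr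
  -- second sum
  set Z := ∏ p ∈ P, (((p : ℝ) - 1) ^ 2 + z * (2 * p - 1)) with hZ
  have hR0 : ∀ d, 0 ≤ ∑ b ∈ range Q, wt P z (d * b) := fun d =>
    Finset.sum_nonneg fun b _ => wt_nonneg P z hz.le _
  have hZ' : ∑ a ∈ range Q, ∑ b ∈ range Q, wt P z (a * b) = Z := sum_wt_mul P hP z
  have hZ0 : 0 ≤ Z := by
    rw [← hZ']
    exact Finset.sum_nonneg fun a _ => hR0 a
  have s3 : ∑ m ∈ M, wt P z m ≤
      ((n : ℝ) / Q + 1) * ((((y : ℝ) / n + 1) / Q + 1) * Z) := by
    set R := (Ico (n + 1) (2 * n)).sigma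
      (fun d => Ico (x / d + 1) ((x + y - 1) / d + 1)) with hR
    have hsub : M ⊆ R.image (fun q => q.1 * q.2) := by
      intro m hm
      rw [hM, mem_filter, mem_Ico] at hm
      obtain ⟨⟨hm1, hm2⟩, d, hd1, hd2, e, he⟩ := hm
      rw [mem_image]
      refine ⟨⟨d, e⟩, ?_, he.symm⟩
      rw [hR, mem_sigma, mem_Ico, mem_Ico]
      have hd0 : 0 < d := by omega
      refine ⟨⟨hd1, hd2⟩, ?_, ?_⟩
      · have : x / d < e := by
          rw [Nat.div_lt_iff_lt_mul hd0, mul_comm]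
          omega
        exact this
      · have : e ≤ (x + y - 1) / d := by
          rw [Nat.le_div_iff_mul_le hd0, mul_comm]
          omega
        exact Nat.lt_succ_of_le this
    have h1 : ∑ m ∈ M, wt P z m ≤ ∑ q ∈ R, wt P z (q.1 * q.2) := by
      refine (Finset.sum_le_sum_of_subset_of_nonneg hsub
        fun i _ _ => wt_nonneg P z hz.le i).trans ?_
      exact Finset.sum_image_le_of_nonneg fun i _ => wt_nonneg P z hz.le i
    have h2 : ∑ q ∈ R, wt P z (q.1 * q.2) ≤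
        ∑ d ∈ Ico (n + 1) (2 * n), (((y : ℝ) / n + 1) / Q + 1) * ∑ b ∈ range Q, wt P z (d * b) := by
      rw [hR, Finset.sum_sigma]
      refine Finset.sum_le_sum fun d hd => ?_
      rw [mem_Ico] at hd
      refine (sum_Ico_le (fun e => wt P z (d * e)) Q hQ0 (fun r => wt_mul_mod P z d r)
        (fun r => wt_nonneg P z hz.le _) _ _).trans ?_
      have h3 := len_le n x y d hn (by omega)
      have h4 : ((((x + y - 1) / d + 1) - (x / d + 1) : ℕ) : ℝ) ≤ (y : ℝ) / n + 1 := by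
        have h5 : ((((x + y - 1) / d + 1) - (x / d + 1) : ℕ) : ℝ) ≤ ((y / n + 1 : ℕ) : ℝ) := by
          exact_mod_cast h3
        have h6 : ((y / n : ℕ) : ℝ) ≤ (y : ℝ) / n := Nat.cast_div_le
        rw [Nat.cast_succ (y / n)] at h5
        linarith
      have := hR0 d
      gcongr
    rw [← Finset.mul_sum] at h2
    have h3 := sum_Ico_le (fun d => ∑ b ∈ range Q, wt P z (d * b)) Q hQ0
      (fun r => Finset.sum_congr rfl fun b _ => by
        rw [mul_comm, wt_mul_mod P z b r, mul_comm]) hR0 (n + 1) (2 * n)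
    rw [hZ'] at h3
    have h4 : (((2 * n - (n + 1) : ℕ)) : ℝ) ≤ n := by
      exact_mod_cast (show 2 * n - (n + 1) ≤ n by omega)
    calc ∑ m ∈ M, wt P z m ≤ _ := h1
      _ ≤ _ := h2
      _ ≤ (((y : ℝ) / n + 1) / Q + 1) * (((n : ℝ) / Q + 1) * Z) := by
          have h5 : (((2 * n - (n + 1) : ℕ) : ℝ) / Q + 1) * Z ≤ ((n : ℝ) / Q + 1) * Z := by gcongr
          have h6 := h3.trans h5
          gcongr
      _ = _ := by ring
  rw [e1]
  refine s1.trans ?_
  gcongr

/-! ### Estimates -/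

theorem prod_A (P : Finset ℕ) (hP : ∀ p ∈ P, p.Prime) :
    ∏ p ∈ P, ((p : ℝ) - 1 + 6 / 5) ≤
      (∏ p ∈ P, p : ℕ) * Real.exp (1 / 5 * ∑ p ∈ P, (1 : ℝ) / p) := by
  rw [Finset.mul_sum, Real.exp_sum, Nat.cast_prod, ← Finset.prod_mul_distrib]
  apply Finset.prod_le_prod
  · intro p _
    have : (0 : ℝ) ≤ p := by positivity
    linarith
  · intro p hp
    have hp0 : (0 : ℝ) < p := by exact_mod_cast (hP p hp).pos
    have h1 := Real.add_one_le_exp (1 / 5 * (1 / (p : ℝ)))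
    calc (p : ℝ) - 1 + 6 / 5 = p * (1 / 5 * (1 / (p : ℝ)) + 1) := by field_simp; ring
      _ ≤ _ := by gcongr

theorem prod_B (P : Finset ℕ) (hP : ∀ p ∈ P, p.Prime) :
    ∏ p ∈ P, (((p : ℝ) - 1) ^ 2 + 4 / 5 * (2 * p - 1)) ≤
      ((∏ p ∈ P, p : ℕ) : ℝ) ^ 2 * Real.exp (-(3 / 10) * ∑ p ∈ P, (1 : ℝ) / p) := by
  rw [Finset.mul_sum, Real.exp_sum, Nat.cast_prod, ← Finset.prod_pow, ← Finset.prod_mul_distrib]
  apply Finset.prod_le_prod
  · intro p hp
    have : (2 : ℝ) ≤ p := by exact_mod_cast (hP p hp).two_le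
    have h2 : 0 ≤ ((p : ℝ) - 1) ^ 2 := by positivity
    linarith
  · intro p hp
    have hp2 : (2 : ℝ) ≤ p := by exact_mod_cast (hP p hp).two_le
    have hp0 : (0 : ℝ) < p := by linarith
    have h1 := Real.add_one_le_exp (-(3 / 10) * (1 / (p : ℝ)))
    calc ((p : ℝ) - 1) ^ 2 + 4 / 5 * (2 * p - 1) ≤ (p : ℝ) ^ 2 - 3 / 10 * p := by nlinarith
      _ = (p : ℝ) ^ 2 * (-(3 / 10) * (1 / (p : ℝ)) + 1) := by field_simp; ring
      _ ≤ _ := by gcongr

theorem exists_P (t : ℕ) : ∃ P : Finset ℕ, (∀ p ∈ P, p.Prime) ∧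
    (5 * t : ℝ) ≤ ∑ p ∈ P, (1 : ℝ) / p ∧ ∑ p ∈ P, (1 : ℝ) / p ≤ 5 * t + 1 := by
  classical
  have h := not_summable_one_div_on_primes
  rw [not_summable_iff_tendsto_nat_atTop_of_nonneg] at h
  · have hex : ∃ M : ℕ, (5 * t : ℝ) ≤
        ∑ i ∈ range M, Set.indicator {p : ℕ | p.Prime} (fun n : ℕ => (1 : ℝ) / n) i :=
      (h.eventually_ge_atTop _).exists
    refine ⟨(range (Nat.find hex)).filter Nat.Prime, fun p hp => (mem_filter.1 hp).2, ?_⟩
    have e : ∑ p ∈ (range (Nat.find hex)).filter Nat.Prime, (1 : ℝ) / p =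
        ∑ i ∈ range (Nat.find hex),
          Set.indicator {p : ℕ | p.Prime} (fun n : ℕ => (1 : ℝ) / n) i := by
      rw [Finset.sum_filter]
      apply Finset.sum_congr rfl
      intro i _
      rw [Set.indicator_apply]
      rfl
    rw [e]
    refine ⟨Nat.find_spec hex, ?_⟩
    rcases Nat.eq_zero_or_pos (Nat.find hex) with h0 | h0
    · rw [h0, Finset.sum_range_zero]; positivity
    · obtain ⟨M, hM⟩ := Nat.exists_eq_succ_of_ne_zero h0.ne'
      have h1 := Nat.find_min hex (m := M) (by omega)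
      rw [hM, Finset.sum_range_succ]
      rw [not_le] at h1
      have h2 : Set.indicator {p : ℕ | p.Prime} (fun n : ℕ => (1 : ℝ) / n) M ≤ 1 := by
        rw [Set.indicator_apply]
        split_ifs with h3
        · have : (1 : ℝ) ≤ M := by exact_mod_cast (Nat.Prime.one_le h3)
          rw [div_le_one (by linarith)]
          exact this
        · norm_num
      linarith
  · intro n
    apply Set.indicator_nonneg
    intro x _
    positivity

theorem exists_t (ε : ℝ) (hε : 0 < ε) : ∃ t : ℕ,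
    2 * Real.exp (1 / 5) * ((5 / 6 : ℝ) ^ 6 * Real.exp 1) ^ t +
      4 * ((5 / 4 : ℝ) ^ 6 * Real.exp (-(3 / 2))) ^ t ≤ ε := by
  have he := Real.exp_one_lt_d9
  have he' := Real.exp_one_gt_d9
  have r1 : (5 / 6 : ℝ) ^ 6 * Real.exp 1 < 1 := by
    have : (5 / 6 : ℝ) ^ 6 * Real.exp 1 ≤ (5 / 6 : ℝ) ^ 6 * 2.7182818286 := by gcongr
    refine lt_of_le_of_lt this ?_
    norm_num
  have r2 : (5 / 4 : ℝ) ^ 6 * Real.exp (-(3 / 2)) < 1 := by
    have h1 : (5 / 4 : ℝ) ^ 6 < Real.exp (3 / 2) := by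
      have h2 : Real.exp (3 / 2) ^ 2 = Real.exp 1 ^ 3 := by
        rw [← Real.exp_nat_mul, ← Real.exp_nat_mul]
        norm_num
      have h3 : (2.718 : ℝ) ^ 3 ≤ Real.exp 1 ^ 3 := by
        gcongr
        linarith
      rw [← h2] at h3
      have h4 : ((5 / 4 : ℝ) ^ 6) ^ 2 < Real.exp (3 / 2) ^ 2 := lt_of_lt_of_le (by norm_num) h3
      exact lt_of_pow_lt_pow_left₀ 2 (Real.exp_pos _).le h4
    rw [Real.exp_neg, ← div_eq_mul_inv, div_lt_one (Real.exp_pos _)]
    exact h1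
  have t1 := (tendsto_pow_atTop_nhds_zero_of_lt_one (by positivity) r1).const_mul
    (2 * Real.exp (1 / 5))
  have t2 := (tendsto_pow_atTop_nhds_zero_of_lt_one (by positivity) r2).const_mul 4
  have t3 := t1.add t2
  simp only [mul_zero, add_zero] at t3
  exact ((t3.eventually (gt_mem_nhds hε)).exists).imp fun t ht => ht.le

/-- The upper bound: for every `ε > 0` there is `C` such that `y₀ = C n` is good for all
`n ≥ C`. -/
theorem good_linear (ε : ℝ) (hε : 0 < ε) : ∃ C : ℕ, 0 < C ∧ ∀ n ≥ C, Good ε n (C * n) := by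
  obtain ⟨t, ht⟩ := exists_t ε hε
  obtain ⟨P, hP, hL1, hL2⟩ := exists_P t
  set L := ∑ p ∈ P, (1 : ℝ) / p with hL
  set Q := ∏ p ∈ P, p with hQ
  have hQ0 : 0 < Q := Finset.prod_pos fun p hp => (hP p hp).pos
  have hQr : (1 : ℝ) ≤ Q := by exact_mod_cast hQ0
  refine ⟨2 * Q, by positivity, ?_⟩
  intro n hn x y hy
  have hn0 : 0 < n := by omega
  have hnr : (0 : ℝ) < n := by exact_mod_cast hn0
  have hnQ : (Q : ℝ) ≤ n := by exact_mod_cast (show Q ≤ n by omega)
  have hyr : (2 * Q * n : ℝ) ≤ y := by exact_mod_cast hy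
  have h1 := main_count P hP (6 / 5) (4 / 5) (by norm_num) (by norm_num) (by norm_num) (6 * t)
    n x y hn0
  rw [← hQ] at h1
  have hA := prod_A P hP
  have hB := prod_B P hP
  rw [← hQ, ← hL] at hA hB
  have hy0 : (0 : ℝ) ≤ y := by positivity
  have hyn : 2 * (Q : ℝ) ≤ y / n := by
    rw [le_div_iff₀ hnr]; exact hyr
  -- first term
  have f1 : ((y : ℝ) / Q + 1) * ∏ p ∈ P, ((p : ℝ) - 1 + 6 / 5) ≤
      2 * y * (Real.exp (1 / 5) * Real.exp 1 ^ t) := by
    have h2 : Real.exp (1 / 5 * L) ≤ Real.exp (1 / 5) * Real.exp 1 ^ t := by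
      rw [← Real.exp_nat_mul, ← Real.exp_add]
      apply Real.exp_le_exp.2
      linarith
    have h3 : ((y : ℝ) / Q + 1) * Q ≤ 2 * y := by
      have : ((y : ℝ) / Q + 1) * Q = y + Q := by field_simp
      rw [this]
      nlinarith
    calc _ ≤ ((y : ℝ) / Q + 1) * (Q * Real.exp (1 / 5 * L)) := by gcongr
      _ = (((y : ℝ) / Q + 1) * Q) * Real.exp (1 / 5 * L) := by ring
      _ ≤ _ := by gcongr
  have f2 : ((n : ℝ) / Q + 1) * ((((y : ℝ) / n + 1) / Q + 1) *
      ∏ p ∈ P, (((p : ℝ) - 1) ^ 2 + 4 / 5 * (2 * p - 1))) ≤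
      4 * y * Real.exp (-(3 / 2)) ^ t := by
    have h2 : Real.exp (-(3 / 10) * L) ≤ Real.exp (-(3 / 2)) ^ t := by
      rw [← Real.exp_nat_mul]
      apply Real.exp_le_exp.2
      linarith
    have h3 : ((n : ℝ) / Q + 1) * Q ≤ 2 * n := by
      have : ((n : ℝ) / Q + 1) * Q = n + Q := by field_simp
      rw [this]
      linarith
    have h4 : (((y : ℝ) / n + 1) / Q + 1) * Q ≤ 2 * (y / n) := by
      have : (((y : ℝ) / n + 1) / Q + 1) * Q = y / n + 1 + Q := by field_simp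
      rw [this]
      linarith
    have h5 : (0 : ℝ) ≤ (((y : ℝ) / n + 1) / Q + 1) * Q := by positivity
    calc _ ≤ ((n : ℝ) / Q + 1) * ((((y : ℝ) / n + 1) / Q + 1) *
          ((Q : ℝ) ^ 2 * Real.exp (-(3 / 10) * L))) := by gcongr
      _ = (((n : ℝ) / Q + 1) * Q) * ((((y : ℝ) / n + 1) / Q + 1) * Q) *
          Real.exp (-(3 / 10) * L) := by ring
      _ ≤ (2 * n) * (2 * (y / n)) * Real.exp (-(3 / 2)) ^ t := by gcongr
      _ = _ := by field_simp; ring
  calc (N n x y : ℝ) ≤ _ := h1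
    _ ≤ (6 / 5 : ℝ)⁻¹ ^ (6 * t) * (2 * y * (Real.exp (1 / 5) * Real.exp 1 ^ t)) +
        (4 / 5 : ℝ)⁻¹ ^ (6 * t) * (4 * y * Real.exp (-(3 / 2)) ^ t) := by gcongr
    _ = (2 * Real.exp (1 / 5) * ((5 / 6 : ℝ) ^ 6 * Real.exp 1) ^ t +
      4 * ((5 / 4 : ℝ) ^ 6 * Real.exp (-(3 / 2))) ^ t) * y := by
        rw [pow_mul, pow_mul, mul_pow, mul_pow, inv_div, inv_div]
        ring
    _ ≤ ε * y := by gcongr

/-- The lower bound. -/
theorem good_lower (ε : ℝ) (n y₀ : ℕ) (hn : 1 < (1 - ε) * n)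
    (h : Good ε n y₀) : n < y₀ ∧ ((n : ℝ) - 1) ≤ ε * y₀ := by
  have hN : ∀ y, n ≤ y → (n : ℝ) - 1 ≤ N n n y := by
    intro y hy
    have h1 : Set.Ioo n (2 * n) ⊆ {m : ℕ | n < m ∧ m < n + y ∧ Medium n m} := by
      intro m hm
      exact ⟨hm.1, by have := hm.2; omega, m, hm.1, hm.2, dvd_rfl⟩
    have hfin : {m : ℕ | n < m ∧ m < n + y ∧ Medium n m}.Finite :=
      (Set.finite_Ioo n (n + y)).subset fun m hm => ⟨hm.1, hm.2.1⟩
    have h2 := Set.ncard_le_ncard h1 hfin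
    have h3 : (Set.Ioo n (2 * n)).ncard = 2 * n - n - 1 := by
      rw [Set.ncard_eq_toFinset_card', Set.toFinset_Ioo, Nat.card_Ioo]
    rw [h3] at h2
    have h4 : n ≤ N n n y + 1 := by
      unfold N
      omega
    have h5 : (n : ℝ) ≤ N n n y + 1 := by exact_mod_cast h4
    linarith
  have hlt : n < y₀ := by
    by_contra hcon
    rw [not_lt] at hcon
    have h1 := h n n hcon
    have h2 := hN n le_rfl
    nlinarith
  refine ⟨hlt, ?_⟩
  exact (hN y₀ hlt.le).trans (h n y₀ le_rfl)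

/-- **The order of growth of `y(ε, n)` is exactly `n`.**  For every fixed `0 < ε < 1` there are `C`
and `N₀` such that for all `n ≥ N₀` the quantity `y(ε, n)` is a natural number `k` with
`n < k ≤ C n`, and moreover `k ≥ (n - 1) / ε`.  For `ε ≥ 1` one has `y(ε, n) = 0` for all `n`. -/
theorem result (ε : ℝ) (hε : 0 < ε) :
    (ε < 1 → ∃ C N₀ : ℕ, ∀ n ≥ N₀, ∃ k : ℕ, Y ε n = k ∧ n < k ∧ (n : ℝ) - 1 ≤ ε * k ∧
      k ≤ C * n) ∧
    (1 ≤ ε → ∀ n : ℕ, Y ε n = 0) := by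
  classical
  constructor
  · intro hε1
    obtain ⟨C, hC0, hC⟩ := good_linear ε hε
    obtain ⟨N₁, hN₁⟩ := exists_nat_gt (1 / (1 - ε))
    refine ⟨C, max C N₁, fun n hn => ?_⟩
    have hnC : C ≤ n := (le_max_left _ _).trans hn
    have hnN : N₁ ≤ n := (le_max_right _ _).trans hn
    have hn1 : 1 < (1 - ε) * n := by
      have h1 : (1 : ℝ) / (1 - ε) < n := lt_of_lt_of_le hN₁ (by exact_mod_cast hnN)
      rw [div_lt_iff₀ (by linarith)] at h1
      linarith
    have hex : ∃ y₀, Good ε n y₀ := ⟨C * n, hC n hnC⟩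
    have hY : Y ε n = (Nat.find hex : ℕ) := by
      apply le_antisymm
      · exact sInf_le ⟨Nat.find hex, rfl, Nat.find_spec hex⟩
      · apply le_sInf
        rintro k ⟨y₀, rfl, hy₀⟩
        exact_mod_cast Nat.find_min' hex hy₀
    obtain ⟨h1, h2⟩ := good_lower ε n _ hn1 (Nat.find_spec hex)
    exact ⟨Nat.find hex, hY, h1, h2, Nat.find_min' hex (hC n hnC)⟩
  · intro hε1 n
    have hgood : Good ε n 0 := by
      intro x y _
      have h1 : {m : ℕ | x < m ∧ m < x + y ∧ Medium n m} ⊆ Set.Ioo x (x + y) :=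
        fun m hm => ⟨hm.1, hm.2.1⟩
      have h2 := Set.ncard_le_ncard h1 (Set.finite_Ioo _ _)
      have h3 : (Set.Ioo x (x + y)).ncard = x + y - x - 1 := by
        rw [Set.ncard_eq_toFinset_card', Set.toFinset_Ioo, Nat.card_Ioo]
      rw [h3] at h2
      have h4 : N n x y ≤ y := by
        unfold N
        omega
      have h5 : (N n x y : ℝ) ≤ y := by exact_mod_cast h4
      have h6 : (0 : ℝ) ≤ y := by positivity
      nlinarith
    apply le_antisymm _ zero_le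
    exact sInf_le ⟨0, rfl, hgood⟩

end Pool.Agent.Results.MP_d08b2e_nt.LinearGrowth
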